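import Pool.Agent.helper88.RL.SpecW
import Pool.Agent.helper88.RF.WDA

/-!
# Project RL (MP_16912e_nt), row VDC: the dual map
-/

set_option autoImplicit false

namespace Pool.Agent.RL

open Finset Pool.Agent.helper3.FT Pool.Agent.T6 Pool.Agent.RF

theorem VDC (h1 : WEU_stmt) : VDC_stmt := by
  intro k g U P H hk0 hkk hcg hd1 hd2
  have : IsDomain OO := h1.1
  have hph := WDA_ph
  have hsp := WDA_star_ph
  obtain ⟨e, he⟩ := hd1
  obtain ⟨t3, h3⟩ := hd2
  have he' := congrArg star he
  rw [star_sub, star_mul, star_mul, star_pow, star_intCast] at he'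
  have hd : k ^ 2 ∣ (star g * star k ^ 2) * (star k ^ 3 * star e - 2 * H * star U) := by
    refine ⟨4 * ph * H * g * U - k * t3, ?_⟩
    linear_combination -h3 - (star g * star k ^ 2) * he'
  have hco2 : IsCoprime (k ^ 2) (star g * star k ^ 2) := (hcg.mul_right hkk.pow_right).pow_left
  obtain ⟨w, hw⟩ := hco2.dvd_of_dvd_mul_left hd
  have hw1 : star g * star k ^ 2 * w = 4 * ph * H * g * U - k * t3 := by
    refine mul_left_cancel₀ (pow_ne_zero 2 hk0) ?_
    linear_combination -h3 - (star g * star k ^ 2) * he' - (star g * star k ^ 2) * hw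
  have hw' := congrArg star hw
  have h2s : star (2 * (H : OO)) = 2 * (H : OO) := by
    have : (2 * (H : OO)) = ((2 * H : ℤ) : OO) := by push_cast; ring
    rw [this, star_intCast]
  rw [star_sub, star_mul, star_pow, star_star, star_star, star_mul (2 * (H : OO)), star_star, h2s, star_mul, star_pow] at hw'
  have hz : k ∣ star k ^ 2 * (star g * w + 2 * ph * g * star w) := by
    refine ⟨2 * ph * g * k ^ 2 * e - t3, ?_⟩
    linear_combination hw1 - 2 * ph * g * hw'
  obtain ⟨z, hz⟩ := (hkk.pow_right (n := 2)).dvd_of_dvd_mul_left hz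
  refine ⟨e, w, z, he, hw, hz, ?_⟩
  have hz' := congrArg star hz
  rw [star_add, star_mul, star_star, star_mul, star_mul, star_mul, star_star, hsp, star_mul] at hz'
  have h2 : star (2 : OO) = 2 := by
    have := star_intCast (R := OO) 2
    exact_mod_cast this
  rw [h2] at hz'
  unfold FF
  rw [hsp]
  linear_combination -5 * g * hw' + star k ^ 2 * (2 * (1 - ph) * hz - hz') + 4 * g * star k ^ 2 * star w * hph

end Pool.Agent.RL
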