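import Pool.Agent.helper88.RL.SpecL
import Pool.Agent.helper88.RF.WPC

/-!
# Project RL (MP_16912e_nt), row NRT: the number of roots `r` modulo `d`
-/

set_option autoImplicit false

namespace Pool.Agent.RL

open Finset Pool.Agent.helper3.FT Pool.Agent.T6 Pool.Agent.RF

/-- coprimality in `OO` -/
theorem NRT_cop (d r : ℕ) (h5 : Nat.Coprime d 5) (hc : Cop r d) : IsCoprime ((d : ℕ) : OO) (5 * ((⟨(r : ℤ), 1⟩ : OO) * star (⟨(r : ℤ), 1⟩ : OO))) := by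
  have h0 : ((⟨(r : ℤ), 1⟩ : OO) * star (⟨(r : ℤ), 1⟩ : OO)) = (((r : ℤ) ^ 2 + r - 1 : ℤ) : OO) := by
    ext
    · rw [QuadraticAlgebra.re_intCast]
      simp only [QuadraticAlgebra.re_mul, QuadraticAlgebra.re_star, QuadraticAlgebra.im_star, Int.cast_id]
      ring
    · rw [QuadraticAlgebra.im_intCast]
      simp only [QuadraticAlgebra.im_mul, QuadraticAlgebra.re_star, QuadraticAlgebra.im_star]
      ring
  have h1 : (5 : OO) * ((⟨(r : ℤ), 1⟩ : OO) * star (⟨(r : ℤ), 1⟩ : OO)) = ((5 * ((r : ℤ) ^ 2 + r - 1) : ℤ) : OO) := by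
    rw [h0, Int.cast_mul]
    rfl
  rw [h1]
  have h2 : IsCoprime ((d : ℕ) : ℤ) (5 * ((r : ℤ) ^ 2 + r - 1)) := by
    refine IsCoprime.mul_right ?_ ?_
    · exact Nat.isCoprime_iff_coprime.2 h5
    · have h3 : Nat.Coprime (nr r) d := hc
      rw [Int.isCoprime_iff_gcd_eq_one, Int.gcd_comm]
      unfold nr at h3
      rw [Int.gcd, Int.natAbs_natCast]
      exact h3
  have h4 := h2.intCast (R := OO)
  rwa [Int.cast_natCast] at h4

open Classical in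
theorem NRT (h1 : WSE_stmt) (h2 : WRO_stmt) : NRT_stmt := by
  intro d v hd hR hP
  have h5 : Nat.Coprime d 5 := by
    refine Nat.Coprime.symm ((Nat.Prime.coprime_iff_not_dvd Nat.prime_five).2 fun h => ?_)
    exact absurd (hR 5 Nat.prime_five h) (lt_irrefl 5)
  obtain ⟨S, hS⟩ : ∃ S, S = (range d).filter (fun r => Cop r d ∧ InG d r v) := ⟨_, rfl⟩
  rw [← hS]
  have hmem : ∀ r ∈ S, r < d ∧ Cop r d ∧ InG d r v := fun r hr => by
    rw [hS, mem_filter, mem_range] at hr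
    exact hr
  obtain ⟨T, hT⟩ : ∃ T : Finset OO, T = S.image (fun r : ℕ => (⟨(r : ℤ), 1⟩ : OO)) := ⟨_, rfl⟩
  have hv : ∀ p : ℕ, p.Prime → p ∣ d → ¬ ((p : OO) ∣ va4 v ∧ (p : OO) ∣ vz4 v) := by
    rintro p hp hpd ⟨k1, k2⟩
    rw [WPC_dvd_iff_nat] at k1 k2
    exact hP p hp hpd ⟨k1.1, k1.2, k2.1, k2.2⟩
  have hk : ∀ p : ℕ, p.Prime → ∀ r : ℕ, ¬ (p : OO) ∣ (⟨(r : ℤ), 1⟩ : OO) := by
    intro p hp r h
    rw [WPC_dvd_iff_nat] at h
    have h3 : (p : ℤ) ∣ 1 := h.2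
    have h4 := Int.natCast_dvd_natCast.1 (show ((p : ℕ) : ℤ) ∣ ((1 : ℕ) : ℤ) from by exact_mod_cast h3)
    exact hp.one_lt.ne' (Nat.dvd_one.1 h4)
  have hTc : ∀ p ∈ d.primeFactors, (T.image (clp p)).card ≤ 3 := by
    intro p hp
    have hp1 := Nat.prime_of_mem_primeFactors hp
    have hp2 := Nat.dvd_of_mem_primeFactors hp
    have hp5 : p ≠ 5 := (hR p hp1 hp2).ne'
    refine (h2 p hp1 hp5).1 (va4 v) (vz4 v) (hv p hp1 hp2) T ?_
    intro k hkT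
    rw [hT, mem_image] at hkT
    obtain ⟨r, hr, rfl⟩ := hkT
    refine ⟨hk p hp1 r, ?_⟩
    have h3 : ((d : ℕ) : OO) ∣ FF ⟨(r : ℤ), 1⟩ (va4 v) (vz4 v) := (hmem r hr).2.2
    refine dvd_trans ?_ h3
    obtain ⟨e, rfl⟩ := hp2
    exact ⟨(e : OO), by push_cast; rfl⟩
  calc S.card ≤ (Finset.pi d.primeFactors (fun p => T.image (clp p))).card := ?_
    _ = ∏ p ∈ d.primeFactors, (T.image (clp p)).card := card_pi _ _
    _ ≤ 3 ^ d.primeFactors.card := prod_le_pow_card _ _ 3 hTc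
  refine card_le_card_of_injOn (fun r : ℕ => fun p _ => clp p (⟨(r : ℤ), 1⟩ : OO)) ?_ ?_
  · intro r hr
    rw [mem_coe] at hr
    rw [mem_coe, mem_pi]
    intro p hp
    rw [mem_image]
    refine ⟨⟨(r : ℤ), 1⟩, ?_, rfl⟩
    rw [hT, mem_image]
    exact ⟨r, hr, rfl⟩
  · intro r hr r' hr' he
    rw [mem_coe] at hr hr'
    obtain ⟨a1, a2, a3⟩ := hmem r hr
    obtain ⟨b1, b2, b3⟩ := hmem r' hr'
    have hdt : ∀ p : ℕ, p.Prime → p ∣ d → (p : ℤ) ∣ dt (⟨(r : ℤ), 1⟩ : OO) (⟨(r' : ℤ), 1⟩ : OO) := by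
      intro p hp hpd
      have hm : p ∈ d.primeFactors := Nat.mem_primeFactors.2 ⟨hp, hpd, by omega⟩
      have h3 := congrFun (congrFun he p) hm
      exact (h2 p hp (hR p hp hpd).ne').2 _ _ (hk p hp r) (hk p hp r') h3
    have h6 := h1 d (va4 v) (vz4 v) (⟨(r : ℤ), 1⟩ : OO) (⟨(r' : ℤ), 1⟩ : OO) (NRT_cop d r h5 a2) (NRT_cop d r' h5 b2) a3 b3 hdt hv
    have h7 : (d : ℤ) ∣ (r' : ℤ) - r := by
      have h8 : dt (⟨(r : ℤ), 1⟩ : OO) (⟨(r' : ℤ), 1⟩ : OO) = (r' : ℤ) - r := by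
        unfold dt
        ring
      rwa [h8] at h6
    have h9 : r ≡ r' [MOD d] := Int.natCast_modEq_iff.1 (Int.modEq_iff_dvd.2 h7)
    exact Nat.ModEq.eq_of_lt_of_lt h9 a1 b1

end Pool.Agent.RL
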